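import Mathlib

/-!
# Domination number versus lower irredundance number of trees

We exhibit trees `T` whose ratio `γ(T) / ir(T)` exceeds every real number below `3/2`;
in particular the maximum of this ratio over all trees is not `5/4`.
-/

namespace Pool.Agent.Results.MP_180bcc_co.RatioThreeHalves

open SimpleGraph

variable {V : Type*}

/-- `w` lies in the closed neighbourhood `N[v]`. -/
def InClosedNbhd (G : SimpleGraph V) (v w : V) : Prop := w = v ∨ G.Adj v w

/-- `D` is dominating: every vertex lies in `N[d]` for some `d ∈ D`. -/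
def IsDominating (G : SimpleGraph V) (D : Finset V) : Prop :=
  ∀ w, ∃ d ∈ D, InClosedNbhd G d w

/-- The domination number `γ(G)`: the least size of a dominating set. -/
noncomputable def dominationNumber (G : SimpleGraph V) : ℕ :=
  sInf {k | ∃ D : Finset V, IsDominating G D ∧ D.card = k}

/-- `S` is irredundant: every `v ∈ S` has a private neighbour, that is, a vertex of `N[v]` lying in
no `N[u]` with `u ∈ S`, `u ≠ v`. -/
def IsIrredundant (G : SimpleGraph V) (S : Finset V) : Prop :=
  ∀ v ∈ S, ∃ w, InClosedNbhd G v w ∧ ∀ u ∈ S, u ≠ v → ¬ InClosedNbhd G u w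

/-- `S` is a maximal irredundant set: irredundant, and no proper superset is irredundant. -/
def IsMaximalIrredundant (G : SimpleGraph V) (S : Finset V) : Prop :=
  IsIrredundant G S ∧ ∀ S' : Finset V, S ⊂ S' → ¬ IsIrredundant G S'

/-- The lower irredundance number `ir(G)`: the least size of a maximal irredundant set. -/
noncomputable def lowerIrredundance (G : SimpleGraph V) : ℕ :=
  sInf {k | ∃ S : Finset V, IsMaximalIrredundant G S ∧ S.card = k}

/-! ### Trees from parent functions -/

/-- The graph on `Fin n` joining every vertex `a > 0` to its parent `p a`. -/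
def parentGraph (n : ℕ) (p : ℕ → ℕ) : SimpleGraph (Fin n) where
  Adj a b := a ≠ b ∧ ((0 < a.val ∧ p a.val = b.val) ∨ (0 < b.val ∧ p b.val = a.val))
  symm := ⟨fun _ _ h => ⟨h.1.symm, h.2.symm⟩⟩
  loopless := ⟨fun _ h => h.1 rfl⟩

theorem parentGraph_isTree (n : ℕ) (p : ℕ → ℕ) (hp : ∀ x, 0 < x → p x < x) (hn : 0 < n) :
    (parentGraph n p).IsTree := by
  have hreach : ∀ k : ℕ, ∀ a : Fin n, a.val = k → (parentGraph n p).Reachable a ⟨0, hn⟩ := by
    intro k
    induction k using Nat.strong_induction_on with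
    | _ k ih =>
      intro a ha
      by_cases h0 : a.val = 0
      · have : a = ⟨0, hn⟩ := Fin.ext h0
        rw [this]
      · have hpos : 0 < a.val := Nat.pos_of_ne_zero h0
        have hlt := hp a.val hpos
        let b : Fin n := ⟨p a.val, lt_trans hlt a.isLt⟩
        have hadj : (parentGraph n p).Adj a b := by
          refine ⟨?_, Or.inl ⟨hpos, rfl⟩⟩
          intro hab
          have := congrArg Fin.val hab
          simp only [b] at this
          omega
        exact hadj.reachable.trans (ih b.val (by simp only [b]; omega) b rfl)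
  have hconn : (parentGraph n p).Connected := by
    have : Nonempty (Fin n) := ⟨⟨0, hn⟩⟩
    refine ⟨fun a b => ?_⟩
    exact (hreach _ a rfl).trans (hreach _ b rfl).symm
  rw [isTree_iff_connected_and_card]
  refine ⟨hconn, ?_⟩
  have h1 := hconn.card_vert_le_card_edgeSet_add_one
  have h2 : Nat.card (parentGraph n p).edgeSet ≤ Nat.card {a : Fin n // 0 < a.val} := by
    let f : {a : Fin n // 0 < a.val} → (parentGraph n p).edgeSet := fun a =>
      ⟨s(a.1, ⟨p a.1.val, lt_trans (hp _ a.2) a.1.isLt⟩), by
        rw [mem_edgeSet]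
        refine ⟨?_, Or.inl ⟨a.2, rfl⟩⟩
        intro hab
        have h := congrArg Fin.val hab
        have := hp _ a.2
        simp only at h
        omega⟩
    refine Nat.card_le_card_of_surjective f ?_
    rintro ⟨e, he⟩
    induction e using Sym2.ind with
    | _ x y =>
      rw [mem_edgeSet] at he
      rcases he.2 with ⟨h0, h⟩ | ⟨h0, h⟩
      · refine ⟨⟨x, h0⟩, ?_⟩
        apply Subtype.ext
        simp only [f]
        congr 1
        exact Fin.ext h
      · refine ⟨⟨y, h0⟩, ?_⟩
        apply Subtype.ext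
        simp only [f]
        rw [Sym2.eq_swap]
        congr 1
        exact Fin.ext h
  have h3 : Nat.card {a : Fin n // 0 < a.val} + 1 = n := by
    rw [Nat.card_eq_fintype_card, Fintype.card_subtype]
    have : (Finset.univ.filter fun a : Fin n => 0 < a.val) = Finset.univ.erase (⟨0, hn⟩ : Fin n) := by
      ext a
      simp only [Finset.mem_filter, Finset.mem_univ, true_and, Finset.mem_erase, and_true]
      constructor
      · intro h hab
        rw [hab] at h
        simp at h
      · intro h
        rcases Nat.eq_zero_or_pos a.val with h' | h'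
        · exact absurd (Fin.ext h') h
        · exact h'
    rw [this, Finset.card_erase_of_mem (Finset.mem_univ _), Finset.card_univ, Fintype.card_fin]
    omega
  rw [Nat.card_eq_fintype_card (α := Fin n), Fintype.card_fin] at h1 ⊢
  omega

/-! ### The extremal trees -/

/-- Parent function: blocks of seven vertices `7i, ..., 7i+6` called `v, w, u, v', w', u', z`;
here `w, u` hang off `v` as a path, `v'` is joined to `v`, the path `w', u'` hangs off `v'`, `z` is
joined to `v'`, and the next block's `v` is joined to `z`. -/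
def par (x : ℕ) : ℕ := if x % 7 = 3 ∨ x % 7 = 6 then x - 3 else x - 1

theorem par_lt (x : ℕ) (hx : 0 < x) : par x < x := by
  unfold par
  split_ifs <;> omega

/-- The tree with `m + 1` blocks, the last block without its vertex `z`. -/
def tree (m : ℕ) : SimpleGraph (Fin (7 * m + 6)) := parentGraph (7 * m + 6) par

theorem tree_isTree (m : ℕ) : (tree m).IsTree :=
  parentGraph_isTree _ _ par_lt (by omega)

/-- Closed adjacency on the level of natural numbers. -/
def C (a b : ℕ) : Prop := b = a ∨ (0 < a ∧ par a = b) ∨ (0 < b ∧ par b = a)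

theorem inClosedNbhd_iff (m : ℕ) (a b : Fin (7 * m + 6)) :
    InClosedNbhd (tree m) a b ↔ C a.val b.val := by
  unfold InClosedNbhd C tree parentGraph
  constructor
  · rintro (h | h)
    · exact Or.inl (congrArg Fin.val h)
    · exact Or.inr h.2
  · rintro (h | h)
    · exact Or.inl (Fin.ext h)
    · by_cases hab : a = b
      · exact Or.inl hab.symm
      · exact Or.inr ⟨hab, h⟩

theorem count_pack (m : ℕ) :
    Nat.count (fun x => x % 7 = 2 ∨ x % 7 = 5 ∨ x % 7 = 6) (7 * m + 6) = 3 * m + 2 := by
  induction m with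
  | zero => decide
  | succ m ih =>
    have h : 7 * (m + 1) + 6 = (7 * m + 6) + 7 := by ring
    have e : ∀ k, (7 * m + 6 + k) % 7 = (6 + k) % 7 := by intro k; omega
    rw [h, Nat.count_add, ih]
    simp only [e, Nat.count_succ, Nat.count_zero]
    norm_num
    ring

theorem count_irr (m : ℕ) :
    Nat.count (fun x => x % 7 = 0 ∨ x % 7 = 3) (7 * m + 6) = 2 * m + 2 := by
  induction m with
  | zero => decide
  | succ m ih =>
    have h : 7 * (m + 1) + 6 = (7 * m + 6) + 7 := by ring
    have e : ∀ k, (7 * m + 6 + k) % 7 = (6 + k) % 7 := by intro k; omega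
    rw [h, Nat.count_add, ih]
    simp only [e, Nat.count_succ, Nat.count_zero]
    norm_num
    ring

/-- Sends a vertex to the vertex of the packing whose closed neighbourhood contains it. -/
def phi (d : ℕ) : ℕ :=
  if d % 7 = 0 then d - 1 else if d % 7 = 1 ∨ d % 7 = 4 then d + 1 else
    if d % 7 = 3 then d + 3 else d

theorem phi_of_C (d x : ℕ) (hx : x % 7 = 2 ∨ x % 7 = 5 ∨ x % 7 = 6) (h : C d x) : phi d = x := by
  unfold C par at h
  unfold phi
  split_ifs at h ⊢ <;> omega

theorem dominating_card (m : ℕ) (D : Finset (Fin (7 * m + 6))) (hD : IsDominating (tree m) D) :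
    3 * m + 2 ≤ D.card := by
  have hsub : (Finset.range (7 * m + 6)).filter (fun x => x % 7 = 2 ∨ x % 7 = 5 ∨ x % 7 = 6) ⊆
      D.image (fun d => phi d.val) := by
    intro x hx
    rw [Finset.mem_filter, Finset.mem_range] at hx
    obtain ⟨d, hdD, hd⟩ := hD ⟨x, hx.1⟩
    rw [inClosedNbhd_iff] at hd
    rw [Finset.mem_image]
    exact ⟨d, hdD, phi_of_C _ _ hx.2 hd⟩
  have h1 := (Finset.card_le_card hsub).trans Finset.card_image_le
  rw [← Nat.count_eq_card_filter_range, count_pack] at h1
  exact h1

theorem le_dominationNumber (m : ℕ) : 3 * m + 2 ≤ dominationNumber (tree m) := by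
  unfold dominationNumber
  have hne : {k | ∃ D : Finset (Fin (7 * m + 6)), IsDominating (tree m) D ∧ D.card = k}.Nonempty :=
    ⟨_, Finset.univ, fun w => ⟨w, Finset.mem_univ _, Or.inl rfl⟩, rfl⟩
  obtain ⟨D, hD, hk⟩ := Nat.sInf_mem hne
  rw [← hk]
  exact dominating_card m D hD

/-- The maximal irredundant set: all vertices `v` and `v'`. -/
def irrSet (m : ℕ) : Finset (Fin (7 * m + 6)) :=
  Finset.univ.filter (fun x => x.val % 7 = 0 ∨ x.val % 7 = 3)

theorem irrSet_card (m : ℕ) : (irrSet m).card = 2 * m + 2 := by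
  rw [← count_irr m, Nat.count_eq_card_filter_range, ← Finset.card_map Fin.valEmbedding]
  congr 1
  ext x
  simp only [irrSet, Finset.mem_map, Finset.mem_filter, Finset.mem_univ, true_and,
    Fin.valEmbedding_apply, Finset.mem_range]
  constructor
  · rintro ⟨a, ha, rfl⟩
    exact ⟨a.isLt, ha⟩
  · rintro ⟨hx, h⟩
    exact ⟨⟨x, hx⟩, h, rfl⟩

theorem irrSet_irredundant (m : ℕ) : IsIrredundant (tree m) (irrSet m) := by
  intro v hv
  have hv' : v.val % 7 = 0 ∨ v.val % 7 = 3 := by
    simpa [irrSet] using hv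
  have hlt := v.isLt
  have hw : v.val + 1 < 7 * m + 6 := by omega
  refine ⟨⟨v.val + 1, hw⟩, ?_, ?_⟩
  · rw [inClosedNbhd_iff]
    unfold C par
    simp only
    split_ifs <;> omega
  · intro u hu huv hC
    have hu' : u.val % 7 = 0 ∨ u.val % 7 = 3 := by
      simpa [irrSet] using hu
    have hne : u.val ≠ v.val := fun h => huv (Fin.ext h)
    rw [inClosedNbhd_iff] at hC
    unfold C par at hC
    simp only at hC
    split_ifs at hC <;> omega

/-- If `x` is a vertex outside the maximal irredundant set, some `v` has no private neighbour. -/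
theorem key (m x : ℕ) (hx : x < 7 * m + 6) (hxS : ¬ (x % 7 = 0 ∨ x % 7 = 3)) :
    ∃ v, v < 7 * m + 6 ∧ (v % 7 = 0 ∨ v % 7 = 3 ∨ v = x) ∧
      ∀ y, y < 7 * m + 6 → C v y →
        ∃ u, u < 7 * m + 6 ∧ (u % 7 = 0 ∨ u % 7 = 3 ∨ u = x) ∧ u ≠ v ∧ C u y := by
  have hr : x % 7 = 1 ∨ x % 7 = 2 ∨ x % 7 = 4 ∨ x % 7 = 5 ∨ x % 7 = 6 := by omega
  rcases hr with hr | hr | hr | hr | hr
  · refine ⟨x - 1, by omega, by omega, fun y hy hC => ?_⟩
    have : y = x - 1 ∨ y = x ∨ y = x + 2 ∨ (y = x - 2 ∧ 2 ≤ x) := by
      unfold C par at hC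
      split_ifs at hC <;> omega
    rcases this with h | h | h | h
    · refine ⟨x + 2, by omega, by omega, by omega, ?_⟩
      unfold C par
      split_ifs <;> omega
    · exact ⟨x, by omega, by omega, by omega, Or.inl h⟩
    · exact ⟨x + 2, by omega, by omega, by omega, Or.inl h⟩
    · refine ⟨x - 5, by omega, by omega, by omega, ?_⟩
      unfold C par
      split_ifs <;> omega
  · refine ⟨x - 2, by omega, by omega, fun y hy hC => ?_⟩
    have : y = x - 2 ∨ y = x - 1 ∨ y = x + 1 ∨ (y = x - 3 ∧ 3 ≤ x) := by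
      unfold C par at hC
      split_ifs at hC <;> omega
    rcases this with h | h | h | h
    · refine ⟨x + 1, by omega, by omega, by omega, ?_⟩
      unfold C par
      split_ifs <;> omega
    · refine ⟨x, by omega, by omega, by omega, ?_⟩
      unfold C par
      split_ifs <;> omega
    · exact ⟨x + 1, by omega, by omega, by omega, Or.inl h⟩
    · refine ⟨x - 6, by omega, by omega, by omega, ?_⟩
      unfold C par
      split_ifs <;> omega
  · refine ⟨x - 1, by omega, by omega, fun y hy hC => ?_⟩
    have : y = x - 1 ∨ y = x ∨ y = x - 4 ∨ y = x + 2 := by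
      unfold C par at hC
      split_ifs at hC <;> omega
    rcases this with h | h | h | h
    · refine ⟨x - 4, by omega, by omega, by omega, ?_⟩
      unfold C par
      split_ifs <;> omega
    · exact ⟨x, by omega, by omega, by omega, Or.inl h⟩
    · exact ⟨x - 4, by omega, by omega, by omega, Or.inl h⟩
    · refine ⟨x + 3, by omega, by omega, by omega, ?_⟩
      unfold C par
      split_ifs <;> omega
  · refine ⟨x - 2, by omega, by omega, fun y hy hC => ?_⟩
    have : y = x - 2 ∨ y = x - 1 ∨ y = x - 5 ∨ y = x + 1 := by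
      unfold C par at hC
      split_ifs at hC <;> omega
    rcases this with h | h | h | h
    · refine ⟨x - 5, by omega, by omega, by omega, ?_⟩
      unfold C par
      split_ifs <;> omega
    · refine ⟨x, by omega, by omega, by omega, ?_⟩
      unfold C par
      split_ifs <;> omega
    · exact ⟨x - 5, by omega, by omega, by omega, Or.inl h⟩
    · refine ⟨x + 2, by omega, by omega, by omega, ?_⟩
      unfold C par
      split_ifs <;> omega
  · refine ⟨x, by omega, by omega, fun y hy hC => ?_⟩
    have : y = x ∨ y = x - 3 ∨ y = x + 1 := by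
      unfold C par at hC
      split_ifs at hC <;> omega
    rcases this with h | h | h
    · refine ⟨x - 3, by omega, by omega, by omega, ?_⟩
      unfold C par
      split_ifs <;> omega
    · exact ⟨x - 3, by omega, by omega, by omega, Or.inl h⟩
    · exact ⟨x + 1, by omega, by omega, by omega, Or.inl h⟩

theorem irrSet_maximal (m : ℕ) : IsMaximalIrredundant (tree m) (irrSet m) := by
  refine ⟨irrSet_irredundant m, fun S' hS' hirr => ?_⟩
  rw [Finset.ssubset_iff_exists_cons_subset] at hS'
  obtain ⟨x, hxS, hsub⟩ := hS'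
  rw [Finset.cons_subset] at hsub
  have hx' : ¬ (x.val % 7 = 0 ∨ x.val % 7 = 3) := by
    simpa [irrSet] using hxS
  obtain ⟨v, hv, hvS, H⟩ := key m x.val x.isLt hx'
  have hmem : ∀ (a : ℕ) (ha : a < 7 * m + 6), (a % 7 = 0 ∨ a % 7 = 3 ∨ a = x.val) →
      (⟨a, ha⟩ : Fin (7 * m + 6)) ∈ S' := by
    intro a ha h
    by_cases hax : a = x.val
    · have : (⟨a, ha⟩ : Fin (7 * m + 6)) = x := Fin.ext hax
      rw [this]
      exact hsub.1
    · apply hsub.2
      simp only [irrSet, Finset.mem_filter, Finset.mem_univ, true_and]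
      omega
  obtain ⟨w, hw, hpriv⟩ := hirr ⟨v, hv⟩ (hmem v hv hvS)
  rw [inClosedNbhd_iff] at hw
  obtain ⟨u, hu, huS, huv, hCu⟩ := H w.val w.isLt hw
  refine hpriv ⟨u, hu⟩ (hmem u hu huS) ?_ ?_
  · intro h
    exact huv (congrArg Fin.val h)
  · rw [inClosedNbhd_iff]
    exact hCu

theorem lowerIrredundance_le (m : ℕ) : lowerIrredundance (tree m) ≤ 2 * m + 2 :=
  Nat.sInf_le ⟨irrSet m, irrSet_maximal m, irrSet_card m⟩

theorem lowerIrredundance_pos (m : ℕ) : 0 < lowerIrredundance (tree m) := by
  rw [Nat.pos_iff_ne_zero]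
  intro h
  unfold lowerIrredundance at h
  rw [Nat.sInf_eq_zero] at h
  rcases h with h | h
  · obtain ⟨S, hS, hc⟩ := h
    rw [Finset.card_eq_zero] at hc
    subst hc
    refine hS.2 {⟨0, by omega⟩} (by simp) ?_
    intro v hv
    refine ⟨v, Or.inl rfl, ?_⟩
    intro u hu huv
    rw [Finset.mem_singleton] at hu hv
    exact absurd (hu.trans hv.symm) huv
  · have : (2 * m + 2) ∈ (∅ : Set ℕ) := by
      rw [← h]
      exact ⟨irrSet m, irrSet_maximal m, irrSet_card m⟩
    exact this

/-- For every real `c < 3/2` there is a tree `T` with `γ(T) / ir(T) > c`.  In particular the maximum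
of `γ(T) / ir(T)` over all trees is not `5/4`. -/
theorem result :
    (∀ c : ℝ, c < 3 / 2 → ∃ (n : ℕ) (T : SimpleGraph (Fin n)), T.IsTree ∧
      0 < lowerIrredundance T ∧ c < (dominationNumber T : ℝ) / (lowerIrredundance T : ℝ)) ∧
    ¬ IsGreatest {r : ℝ | ∃ (n : ℕ) (T : SimpleGraph (Fin n)), T.IsTree ∧
      r = (dominationNumber T : ℝ) / (lowerIrredundance T : ℝ)} (5 / 4) := by
  have main : ∀ c : ℝ, c < 3 / 2 → ∃ (n : ℕ) (T : SimpleGraph (Fin n)), T.IsTree ∧
      0 < lowerIrredundance T ∧ c < (dominationNumber T : ℝ) / (lowerIrredundance T : ℝ) := by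
    intro c hc
    obtain ⟨m, hm⟩ := exists_nat_gt (1 / (3 / 2 - c))
    refine ⟨7 * m + 6, tree m, tree_isTree m, lowerIrredundance_pos m, ?_⟩
    have h1 : (3 * m + 2 : ℝ) ≤ (dominationNumber (tree m) : ℝ) := by
      exact_mod_cast le_dominationNumber m
    have h2 : (lowerIrredundance (tree m) : ℝ) ≤ 2 * m + 2 := by
      exact_mod_cast lowerIrredundance_le m
    have h3 : (0 : ℝ) < (lowerIrredundance (tree m) : ℝ) := by
      exact_mod_cast lowerIrredundance_pos m
    have hpos : (0 : ℝ) < 3 / 2 - c := by linarith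
    rw [div_lt_iff₀ hpos] at hm
    rw [lt_div_iff₀ h3]
    by_cases hc0 : c ≤ 0
    · have : c * (lowerIrredundance (tree m) : ℝ) ≤ 0 :=
        mul_nonpos_of_nonpos_of_nonneg hc0 h3.le
      have hm0 : (0 : ℝ) ≤ m := Nat.cast_nonneg m
      linarith
    · push Not at hc0
      have : c * (lowerIrredundance (tree m) : ℝ) ≤ c * (2 * m + 2) :=
        mul_le_mul_of_nonneg_left h2 hc0.le
      nlinarith
  refine ⟨main, ?_⟩
  intro h
  obtain ⟨n, T, hT, -, hr⟩ := main (5 / 4) (by norm_num)
  have := h.2 ⟨n, T, hT, rfl⟩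
  linarith

end Pool.Agent.Results.MP_180bcc_co.RatioThreeHalves
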